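import Pool.Agent.J4H46.MT.Sum
import Pool.Agent.J4H46.MS.Final
import Pool.Agent.J4H50.TT.Fin

set_option autoImplicit false
set_option linter.unusedSectionVars false
set_option linter.unusedVariables false

/-! # The monodromic zeta functions in the class -/

namespace Pool.Agent.J4H46.MT

open PowerSeries Pool.Agent.W574.MO Pool.Agent.W574.RO Pool.Agent.W574.SM Pool.Agent.N103
open Pool.Agent.J4H46.MS
open Pool.Agent.N103.V (Ev ev_rename BecomesAt)
open Pool.Agent.J4H46.MQ (map_qq map_geo map_den den_mono qq11 ll Xcancel)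
open Pool.Agent.J4H50.NI (LEv CEq LEv_jet)
open Pool.Agent.J4H50.IG (Ord mem_m_iff cc_aeval)
open Pool.Agent.J4H50.TT (not_LEv_sum sum_ne not_LEv_mul not_LEv_mul_neg_one mul_ne not_LEv_swh
  swh_ne swh_zero)
open Pool.Agent.Y229.PS (IsFormalBFunction)

open scoped Polynomial

variable {M E : Type} [CommRing M] [CommRing E] [Algebra M E] {L : Mˣ} (S : TSys M E L)

/-- all the denominators, with `(1, 1)` -/
theorem all_mem {σ : Type} {F : MvPolynomial σ ℂ} {p : σ → ℂ} {Z : E⟦X⟧}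
    (hF : SGood S.mon F p Z) :
    Z ∈ DenRing (MS.LE L) (fun a n => KE F p a n ∨ (a = 1 ∧ n = 1)) ∧
      gtr (cm S.tot Z) ∈ DenRing L (fun a n => KE F p a n ∨ (a = 1 ∧ n = 1)) := by
  obtain ⟨R, ρ, hZ, hR, hσ, hδ⟩ := hF.dec
  have hρ : ρ ∈ DenRing L (fun a n => KE F p a n ∨ (a = 1 ∧ n = 1)) := by
    have h1 : ρ = geo L 1 1 * ((1 - qq L 1 1) * ρ) := by
      linear_combination (-ρ) * geo_mul L (le_refl 1) 1
    rw [h1]
    exact Subring.mul_mem _ (geo_mem le_rfl le_rfl (Or.inr ⟨rfl, rfl⟩))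
      (den_mono (fun _ _ _ _ h => Or.inl h) hσ)
  constructor
  · rw [hZ]
    exact Subring.add_mem _ (den_mono (fun _ _ _ _ h => Or.inl h) hR) (map_den _ hι' hρ)
  · have h1 : gtr (cm S.tot Z) = (gtr (cm S.mon.tot Z) - ρ) + ρ := by
      have : S.mon.tot = S.tot := rfl
      rw [this]
      ring
    rw [h1]
    exact Subring.add_mem _ (den_mono (fun _ _ _ _ h => Or.inl h) hδ) hρ

section Mul

variable {σ τ : Type} {F : MvPolynomial σ ℂ} {G : MvPolynomial τ ℂ} {p : σ → ℂ} {q : τ → ℂ}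

theorem ke_mul_left (hF : F ≠ 0) (hG : G ≠ 0) {a n : ℕ} (h : KE F p a n) :
    KE (MvPolynomial.rename Sum.inl F * MvPolynomial.rename Sum.inr G) (Sum.elim p q) a n := by
  rw [ke_iff] at h ⊢
  exact not_LEv_mul hF hG h

theorem ke_mul_right (hF : F ≠ 0) (hG : G ≠ 0) {a n : ℕ} (h : KE G q a n) :
    KE (MvPolynomial.rename Sum.inl F * MvPolynomial.rename Sum.inr G) (Sum.elim p q) a n := by
  rw [ke_iff] at h ⊢
  rintro ⟨H, hH, hE⟩
  refine not_LEv_mul (p := q) (q := p) hG hF h ?_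
  set ε : τ ⊕ σ ≃ σ ⊕ τ := Equiv.sumComm τ σ
  have e1 : MvPolynomial.rename ε (MvPolynomial.rename Sum.inl G * MvPolynomial.rename Sum.inr F :
      MvPolynomial (τ ⊕ σ) ℂ) =
      MvPolynomial.rename Sum.inl F * MvPolynomial.rename Sum.inr G := by
    rw [map_mul, MvPolynomial.rename_rename, MvPolynomial.rename_rename, mul_comm]
    rfl
  rw [← e1] at hE
  refine ⟨_, ?_, ev_rename ε hE⟩
  rw [MvPolynomial.eval_rename]
  have e2 : Sum.elim q p ∘ ε.symm = Sum.elim p q := by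
    funext i
    rcases i with i | i <;> rfl
  rw [e2]
  exact hH

theorem ke_mul_one (hF : F ≠ 0) (hG : G ≠ 0) (hp : MvPolynomial.eval p F = 0)
    (hq : MvPolynomial.eval q G = 0) :
    KE (MvPolynomial.rename Sum.inl F * MvPolynomial.rename Sum.inr G) (Sum.elim p q) 1 1 := by
  rw [ke_iff]
  have := not_LEv_mul_neg_one hF hG hp hq
  convert this using 2
  norm_num

/-- **The product in separate variables.** -/
theorem good_mul {Z Z' : E⟦X⟧} (hF : SGood S.mon F p Z) (hG : SGood S.mon G q Z') :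
    SGood S.mon (MvPolynomial.rename Sum.inl F * MvPolynomial.rename Sum.inr G) (Sum.elim p q)
      (cv S.mu Z Z') where
  ne := mul_ne hF.ne hG.ne
  zero := by rw [map_mul, Pool.Agent.J4H50.TT.eval_inl, hF.zero, zero_mul]
  dec := by
    obtain ⟨hZ, hg⟩ := all_mem S hF
    obtain ⟨hZ', hg'⟩ := all_mem S hG
    set K := KE (MvPolynomial.rename Sum.inl F * MvPolynomial.rename Sum.inr G) (Sum.elim p q)
      with hK
    have k1 : ∀ a n, 1 ≤ a → 1 ≤ n → (KE F p a n ∨ (a = 1 ∧ n = 1)) → K a n := by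
      rintro a n _ _ (h | ⟨rfl, rfl⟩)
      · exact ke_mul_left hF.ne hG.ne h
      · exact ke_mul_one hF.ne hG.ne hF.zero hG.zero
    have k2 : ∀ a n, 1 ≤ a → 1 ≤ n → (KE G q a n ∨ (a = 1 ∧ n = 1)) → K a n := by
      rintro a n _ _ (h | ⟨rfl, rfl⟩)
      · exact ke_mul_right hF.ne hG.ne h
      · exact ke_mul_one hF.ne hG.ne hF.zero hG.zero
    have h1 := cv_mem S.mu (den_mono k1 hZ) (den_mono k2 hZ')
    have hgt := den_mono k1 hg
    have hgt' := den_mono k2 hg'
    refine ⟨cv S.mu Z Z', 0, by rw [map_zero, add_zero], h1,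
      by rw [mul_zero]; exact Subring.zero_mem _, ?_⟩
    rw [sub_zero]
    have hmt : S.mon.tot = S.tot := rfl
    rw [hmt]
    set g := gtr (cm S.tot Z) with hgd
    set g' := gtr (cm S.tot Z') with hgd'
    have e0 : cm S.tot (cv S.mu Z Z') = cm S.tot Z * cm S.tot Z' := by
      ext m
      rw [coeff_cm, coeff_cv, coeff_mul, map_sum]
      refine Finset.sum_congr rfl fun x _ => ?_
      rw [coeff_cm, coeff_cm, S.tot_mu]
    have e1 : gtr (cm S.tot (cv S.mu Z Z')) = g + g' - (1 - X) * (g * g') := by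
      apply Xcancel
      rw [e0]
      have h2 := gtr_eq (cm S.tot Z * cm S.tot Z')
      have h3 := gtr_eq (cm S.tot Z)
      have h4 := gtr_eq (cm S.tot Z')
      rw [← hgd] at h3
      rw [← hgd'] at h4
      have h5 : cm S.tot Z = 1 - (1 - X) * g := by linear_combination h3
      have h6 : cm S.tot Z' = 1 - (1 - X) * g' := by linear_combination h4
      rw [h2, h5, h6]
      ring
    rw [e1]
    exact Subring.sub_mem _ (Subring.add_mem _ hgt hgt') (Subring.mul_mem _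
      (Subring.sub_mem _ (Subring.one_mem _) X_mem) (Subring.mul_mem _ hgt hgt'))

end Mul

/-- the property is inherited if the functional equations are -/
theorem good_mono {σ τ : Type} {F : MvPolynomial σ ℂ} {p : σ → ℂ} {G : MvPolynomial τ ℂ}
    {q : τ → ℂ} {Z : E⟦X⟧} (hF : SGood S.mon F p Z) (hne : G ≠ 0)
    (h0 : MvPolynomial.eval q G = 0) (h : ∀ s : ℂ, ¬ LEv p F s → ¬ LEv q G s) :
    SGood S.mon G q Z where
  ne := hne
  zero := h0
  dec := by
    obtain ⟨R, ρ, hZ, hR, hσ, hδ⟩ := hF.dec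
    have hK : ∀ a n, 1 ≤ a → 1 ≤ n → KE F p a n → KE G q a n := by
      intro a n _ _ h1
      rw [ke_iff] at h1 ⊢
      exact h _ h1
    exact ⟨R, ρ, hZ, den_mono hK hR, den_mono hK hσ, den_mono hK hδ⟩

theorem good_extra {σ τ : Type} {F : MvPolynomial σ ℂ} {p : σ → ℂ} (q : τ → ℂ) {Z : E⟦X⟧}
    (hF : SGood S.mon F p Z) :
    SGood S.mon (MvPolynomial.rename Sum.inl F) (Sum.elim p q) Z := by
  refine good_mono S hF ?_ ?_ ?_
  · rw [Ne, map_eq_zero_iff _ (MvPolynomial.rename_injective _ Sum.inl_injective)]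
    exact hF.ne
  · rw [Pool.Agent.J4H50.TT.eval_inl, hF.zero]
  · intro s h
    have h2 := not_LEv_mul (G := (1 : MvPolynomial τ ℂ)) (q := q) hF.ne one_ne_zero h
    rwa [map_one, mul_one] at h2

theorem good_ren {σ τ : Type} {F : MvPolynomial σ ℂ} {p : σ → ℂ} {Z : E⟦X⟧} (ε : σ ≃ τ)
    (hF : SGood S.mon F p Z) :
    SGood S.mon (MvPolynomial.rename ε F) (fun i => p (ε.symm i)) Z := by
  refine good_mono S hF ?_ ?_ ?_
  · rw [Ne, map_eq_zero_iff _ (MvPolynomial.rename_injective _ ε.injective)]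
    exact hF.ne
  · rw [MvPolynomial.eval_rename]
    have e2 : (fun i => p (ε.symm i)) ∘ ε = p := by
      funext i
      simp
    rw [e2, hF.zero]
  · rintro s h ⟨H, hH, hE⟩
    refine h ⟨_, ?_, ev_rename ε hE⟩
    rw [MvPolynomial.eval_rename]
    exact hH

theorem good_jet {σ : Type} [Fintype σ] [DecidableEq σ] {F F' : MvPolynomial σ ℂ} {Z : E⟦X⟧}
    (hF : SGood S.mon F 0 Z) (hj : ∀ n, CEq F' F n) : SGood S.mon F' 0 Z := by
  have hne : F' ≠ 0 := by
    rintro rfl
    apply hF.ne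
    ext m
    obtain ⟨ψ, v, hψ, hv, h⟩ := hj (m.degree + 1)
    rw [map_zero, mul_zero, zero_sub] at h
    have h1 := (MvPolynomial.mem_pow_idealOfVars_iff' _ _).1 h m (Nat.lt_succ_self _)
    rw [MvPolynomial.coeff_neg, neg_eq_zero] at h1
    rw [h1, MvPolynomial.coeff_zero]
  have h0 : MvPolynomial.eval 0 F' = 0 := by
    obtain ⟨ψ, v, hψ, hv, h⟩ := hj 1
    have hF0 : MvPolynomial.constantCoeff F = 0 := by
      rw [← MvPolynomial.eval_zero]
      exact hF.zero
    rw [pow_one, mem_m_iff, map_sub, map_mul, cc_aeval ψ hψ.1, hF0, sub_zero] at h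
    rw [MvPolynomial.eval_zero]
    exact (hv.mul_right_eq_zero).1 h
  exact good_mono S hF hne h0 fun s h h' => h (LEv_jet s hne h' hj)

section Swh

variable {r : ℕ}

theorem wt_add (w : Fin r → ℕ) {D : ℕ} (hD : 0 < D) (m : ℕ) :
    ∑ i, (m + D) * w i / D = ∑ i, m * w i / D + ∑ i, w i := by
  rw [← Finset.sum_add_distrib]
  refine Finset.sum_congr rfl fun i _ => ?_
  rw [Nat.add_mul, Nat.add_mul_div_left _ _ hD]

theorem swA_mem (w : Fin r → ℕ) {D : ℕ} (hD : 0 < D) (hW : 1 ≤ ∑ i, w i)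
    (P : MvPolynomial (Fin r) ℂ) {K : ℕ → ℕ → Prop} (hK : K D (∑ i, w i)) :
    swA S w D P ∈ DenRing (MS.LE L) K := by
  have h1 : IsPol ((1 - qq (MS.LE L) D (∑ i, w i)) * swA S w D P) := by
    refine ⟨D + 1, fun e he => ?_⟩
    rw [sub_mul, one_mul, map_sub, coeff_qq_mul, if_pos (by omega)]
    obtain ⟨k, rfl⟩ : ∃ k, e = k + D := ⟨e - D, by omega⟩
    rw [Nat.add_sub_cancel, swA, coeff_mk, coeff_mk, if_neg (by omega), if_neg (by omega),
      wt_add w hD, pow_add, Units.val_mul]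
    have h2 : (Finset.univ.filter fun i => D ∣ (k + D) * w i)
        = Finset.univ.filter fun i => D ∣ k * w i := by
      refine Finset.filter_congr fun i _ => ?_
      rw [Nat.add_mul]
      exact (Nat.dvd_add_left (dvd_mul_right D (w i)))
    rw [h2]
    ring
  have h3 : swA S w D P = geo (MS.LE L) D (∑ i, w i)
      * ((1 - qq (MS.LE L) D (∑ i, w i)) * swA S w D P) := by
    linear_combination (-swA S w D P) * geo_mul (MS.LE L : Eˣ) hD (∑ i, w i)
  rw [h3]
  exact Subring.mul_mem _ (geo_mem hD hW hK) (mem_of_isPol h1)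

theorem swV_mem (w : Fin r → ℕ) (hw : ∀ i, 0 < w i) {D : ℕ} (hD : 0 < D) (hW : 1 ≤ ∑ i, w i)
    {K : ℕ → ℕ → Prop} (hK : K D (∑ i, w i)) : swV L w D ∈ DenRing L K := by
  have h1 : IsPol ((1 - qq L D (∑ i, w i)) * swV L w D) := by
    refine ⟨D, fun e he => ?_⟩
    rw [sub_mul, one_mul, map_sub, coeff_qq_mul, if_pos he]
    obtain ⟨k, rfl⟩ : ∃ k, e = k + D := ⟨e - D, by omega⟩
    rw [Nat.add_sub_cancel, swV, coeff_mk, coeff_mk]
    have h2 : ∑ i, ((k + D + 1) * w i - 1) / D = ∑ i, ((k + 1) * w i - 1) / D + ∑ i, w i := by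
      rw [← Finset.sum_add_distrib]
      refine Finset.sum_congr rfl fun i _ => ?_
      have h3 : (k + D + 1) * w i - 1 = ((k + 1) * w i - 1) + D * w i := by
        have h4 : 1 ≤ (k + 1) * w i := Nat.mul_pos (Nat.succ_pos k) (hw i)
        have h5 : (k + D + 1) * w i = (k + 1) * w i + D * w i := by ring
        omega
      rw [h3, Nat.add_mul_div_left _ _ hD]
    rw [h2, pow_add, Units.val_mul]
    ring
  have h3 : swV L w D = geo L D (∑ i, w i)
      * ((1 - qq L D (∑ i, w i)) * swV L w D) := by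
    linear_combination (-swV L w D) * geo_mul L hD (∑ i, w i)
  rw [h3]
  exact Subring.mul_mem _ (geo_mem hD hW hK) (mem_of_isPol h1)

/-- **The semi-weighted-homogeneous polynomials.** -/
theorem good_swh (hr : 1 ≤ r) (G0 G1 : MvPolynomial (Fin r) ℂ) (w : Fin r → ℕ) (D : ℕ)
    (hw : ∀ i, 0 < w i) (hD : 0 < D) (hG0 : G0.IsWeightedHomogeneous w D)
    (hG1 : Ord w (D + 1) G1)
    (h0 : ∀ i, MvPolynomial.constantCoeff (MvPolynomial.pderiv i G0) = 0)
    (h1 : ∀ i, MvPolynomial.constantCoeff (MvPolynomial.pderiv i G1) = 0)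
    (hz : ∀ z : Fin r → ℂ, (∀ i, MvPolynomial.eval z (MvPolynomial.pderiv i G0) = 0) → z = 0) :
    SGood S.mon (G0 + G1) 0 (swZ S w D G0) := by
  haveI : Nonempty (Fin r) := ⟨⟨0, by omega⟩⟩
  have hne := swh_ne hG0 hG1 hz
  refine ⟨hne, swh_zero hD hG0 hG1, ?_⟩
  have hL := not_LEv_swh G0 G1 w D hw hD hG0 hG1 h0 h1 hz hne
  have hW : 1 ≤ ∑ i, w i := Finset.sum_pos (fun i _ => hw i) Finset.univ_nonempty
  have hK : KE (G0 + G1) 0 D (∑ i, w i) := by
    rw [ke_iff]
    convert hL using 2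
    rw [neg_div]
  have hA := swA_mem S w hD hW G0 hK
  have hV := swV_mem (L := L) w hw hD hW hK
  have hT := cm_mem' S.tot hA
  set A := swA S w D G0 with hAd
  set V := swV L w D with hVd
  set B := 1 - (1 - X) * V - cm S.tot A with hB
  have hBK : B ∈ DenRing L (KE (G0 + G1) 0) :=
    Subring.sub_mem _ (Subring.sub_mem _ (Subring.one_mem _) (Subring.mul_mem _
      (Subring.sub_mem _ (Subring.one_mem _) X_mem) hV)) hT
  have h4 := qf11 (L := L)
  have h5 := ll L
  rw [qq11] at h4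
  have hmt : S.mon.tot = S.tot := rfl
  refine ⟨A, B * qf L 1 1, rfl, hA, ?_, ?_⟩
  · have e1 : (1 - qq L 1 1) * (B * qf L 1 1) = qq L 1 1 * B := by
      rw [qq11]
      linear_combination B * h4
    rw [e1]
    exact Subring.mul_mem _ (qq_mem _ _) hBK
  · rw [hmt]
    have e2 : gtr (cm S.tot (swZ S w D G0)) - B * qf L 1 1 = V + B := by
      apply Xcancel
      have h6 := gtr_eq (cm S.tot (swZ S w D G0))
      have h7 : cm S.tot (swZ S w D G0) = cm S.tot A + C ((L : M) - 1) * (B * qf L 1 1) := by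
        rw [swZ, ← hAd, ← hVd, ← hB, cm_add]
        congr 1
        exact cm_tot_map (S := S.mon) _
      rw [map_sub, map_one] at h7
      linear_combination h6 - h7 + (-(C (L : M)) * B) * h4 - (X * B * (1 + qf L 1 1)) * h5 - hB
    rw [e2]
    exact Subring.add_mem _ hV hBK

end Swh

/-- **The zeta functions in the class.** -/
theorem tz_good {σ : Type} {F : MvPolynomial σ ℂ} {p : σ → ℂ} {Z : E⟦X⟧} (hZ : TZ S σ F p Z) :
    SGood S.mon F p Z := by
  induction hZ with
  | smooth F p h0 i h1 => exact good_smooth F p h0 i h1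
  | lin h f a ha hF P c h0 Z hZ => exact ⟨hF, h0, base_case (S := S.mon) hF ha hZ⟩
  | swh hr G0 G1 w D hw hD hG0 hG1 h0 h1 hz =>
    exact good_swh S hr G0 G1 w D hw hD hG0 hG1 h0 h1 hz
  | sum F G p q Z Z' _ _ ihF ihG => exact good_sum S ihF ihG
  | mul F G p q Z Z' _ _ ihF ihG => exact good_mul S ihF ihG
  | pow k hk hk0 G p Z hG ih => exact good_pow k hk hk0 ih
  | extra F p q Z _ ih => exact good_extra S q ih
  | ren ε F p Z _ ih => exact good_ren S ε ih
  | jet F F' Z _ hj ih => exact good_jet S ih hj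

/-- **The local theorem.** -/
theorem tz_local {N : ℕ} (f : MvPowerSeries (Fin N) ℂ)
    {σ : Type} (F : MvPolynomial σ ℂ) (hf : BecomesAt f F) (Z : E⟦X⟧) (hZ : TZ S σ F 0 Z)
    (b : Polynomial ℂ) (hb : IsFormalBFunction f b) :
    Z ∈ DenRing (MS.LE L) (Kb b) ∧ cm S.tot Z ∈ DenRing L (Kb b) :=
  good_local f F hf Z (tz_good S hZ) b hb

end Pool.Agent.J4H46.MT
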