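import Pool.Agent.J4H46.MS.SDefs
import Pool.Agent.J4H50.NI.K
import Pool.Agent.J4H50.IG.Sw1

set_option autoImplicit false

/-! # The monodromic motivic zeta functions of Thom-Sebastiani sums and products

For a polynomial `G` in `d` variables with `G(p) = 0`, let `X_m` be the space of the arcs `φ` at `p`,
modulo `t^(m+1)`, with `G(φ) = c tᵐ + ⋯`, `c ≠ 0`. The angular component `φ ↦ c` is a morphism from
`X_m` to the multiplicative group `𝔾`. The local monodromic motivic zeta function of `G`,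
normalized such that all the arcs at `p` have the volume `1`, is the series
`∑_{m ≥ 1} [X_m → 𝔾] L^(- m d) Tᵐ` with coefficients in the Grothendieck ring of varieties over `𝔾`,
localized at `L`. The class of the total space gives the usual motivic zeta function. -/

namespace Pool.Agent.J4H46.MT

open Pool.Agent.N103 Pool.Agent.W574.SM Pool.Agent.W574.MO Pool.Agent.J4H46.MS
open Pool.Agent.J4H50.NI (CEq)
open Pool.Agent.J4H50.IG (Ord)

open scoped Polynomial PowerSeries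
open PowerSeries (C coeff X)

/-- Relative classes over the multiplicative group `𝔾`. The main example is `M = K₀(Var_ℂ)[1/L]`,
`E = K₀(Var_𝔾)[1/L]`, the Grothendieck ring of the varieties `A → 𝔾` over `𝔾`, with the fibre
product over `𝔾`, which is an algebra over `M` by `[B] [A → 𝔾] = [B × A → 𝔾]`. The unit element is
the class of the identity of `𝔾`. Below `c : A → 𝔾` and `c' : A' → 𝔾`. -/
structure TSys (M E : Type) [CommRing M] [CommRing E] [Algebra M E] (L : Mˣ) where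
  /-- the class of `𝔾 → 𝔾`, `x ↦ x ^ n` -/
  pc : ℕ → E
  /-- the class of the family of the smooth projective curves with the equations `P(v) τ ^ n = x`,
  `x ∈ 𝔾`: the class of `(v, τ) ↦ P(v) τ ^ n`, `P(v) ≠ 0`, `τ ≠ 0`, plus the sum of the `pc g` for
  `g = gcd (n, m)`, where `m` runs through the multiplicities of the zeros of `P` and `m = deg P` -/
  cl : ℕ → ℂ[X] → E
  /-- the class of `P : {x | P(x) ≠ 0, x_i = 0 for i ∉ I} → 𝔾`, for a polynomial `P` in `x₁, …, x_r` -/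
  po : (r : ℕ) → MvPolynomial (Fin r) ℂ → Finset (Fin r) → E
  /-- the class of the total space `A` of `A → 𝔾` -/
  tot : E →ₗ[M] M
  /-- the class of `(x, y) ↦ c(x) + c'(y)` on `{(x, y) ∈ A × A' | c(x) + c'(y) ≠ 0}` -/
  nz : E →ₗ[M] E →ₗ[M] E
  /-- the class of `{(x, y) ∈ A × A' | c(x) + c'(y) = 0}` -/
  zr : E →ₗ[M] E →ₗ[M] M
  /-- the class of `(x, y) ↦ c(x) c'(y)` on `A × A'` -/
  mu : E →ₗ[M] E →ₗ[M] E
  /-- the class of `x ↦ c(x) ^ k` -/
  pw : ℕ → E →ₗ[M] E
  pc_one : pc 1 = 1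
  tot_pc : ∀ n, 1 ≤ n → tot (pc n) = (L : M) - 1
  tot_cl : ∀ n P, 1 ≤ n → P ≠ 0 → tot (cl n P) = ((L : M) + 1) * ((L : M) - 1)
  /-- if at most two points of the projective line are branch points, the curves are unions of
  projective lines -/
  cl_two : ∀ n P, 1 ≤ n → P ≠ 0 → (spec n P).card ≤ 2 →
    cl n P = algebraMap M E ((L : M) + 1) * pc (gmul n P)
  nz_comm : ∀ x y, nz x y = nz y x
  zr_comm : ∀ x y, zr x y = zr y x
  /-- over `u ∈ 𝔾` the fibre of `c(x) + y`, `y ∈ 𝔾`, consists of the `x` with `c(x) ≠ u` -/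
  nz_one : ∀ x, nz x 1 = algebraMap M E (tot x) - x
  zr_one : ∀ x, zr x 1 = tot x
  tot_nz : ∀ x y, tot (nz x y) + zr x y = tot x * tot y
  tot_mu : ∀ x y, tot (mu x y) = tot x * tot y
  tot_pw : ∀ k x, 1 ≤ k → tot (pw k x) = tot x

section Ops

variable {M A B D : Type} [CommRing M] [CommRing A] [CommRing B] [CommRing D]
  [Algebra M A] [Algebra M B] [Algebra M D]

/-- `∑ β(f_m, g_m) Tᵐ` for `f = ∑ f_m Tᵐ`, `g = ∑ g_m Tᵐ` and a bilinear map `β` -/
noncomputable def hd (β : A →ₗ[M] B →ₗ[M] D) (f : A⟦X⟧) (g : B⟦X⟧) : D⟦X⟧ :=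
  PowerSeries.mk fun m => β (coeff m f) (coeff m g)

/-- `∑_m ∑_{i + j = m} β(f_i, g_j) Tᵐ` for `f = ∑ f_m Tᵐ`, `g = ∑ g_m Tᵐ` and a bilinear map `β` -/
noncomputable def cv (β : A →ₗ[M] B →ₗ[M] D) (f : A⟦X⟧) (g : B⟦X⟧) : D⟦X⟧ :=
  PowerSeries.mk fun m => ∑ p ∈ Finset.HasAntidiagonal.antidiagonal m,
    β (coeff p.1 f) (coeff p.2 g)

end Ops

section Zeta

variable {M E : Type} [CommRing M] [CommRing E] [Algebra M E] {L : Mˣ}

/-- **The Thom-Sebastiani formula** (Denef, Loeser; Looijenga): the monodromic zeta function of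
`F(x) + G(y)` from the ones of `F` and `G`, `𝓩 = ∑ a_m Tᵐ` and `𝓩' = ∑ b_m Tᵐ`. Let
`g_m = 1 - ∑_{l ≤ m} tot a_l` and `g'_m = 1 - ∑_{l ≤ m} tot b_l` be the volumes of `ord F(φ) > m` and
`ord G(ψ) > m` (`gtr`). The parts come from the following pairs of arcs `(φ, ψ)`.

* `∑ a_m g'_m Tᵐ`: `m = ord F(φ) < ord G(ψ)`;
* `∑ g_m b_m Tᵐ`: `ord F(φ) > ord G(ψ) = m`;
* `∑ nz(a_m, b_m) Tᵐ`: `ord F(φ) = ord G(ψ) = m`, and the sum of the angular components is not zero;
* `∑ zr(a_m, b_m) Tᵐ L⁻¹ T / (1 - L⁻¹ T)`: `ord F(φ) = ord G(ψ) = m`, and the sum of the angular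
  components is zero; here `(F(φ) + G(ψ)) / tᵐ` is uniformly distributed among the power series in
  `t` without constant term. -/
noncomputable def tsm (S : TSys M E L) (Z Z' : E⟦X⟧) : E⟦X⟧ :=
  hd (LinearMap.mul M E) Z (PowerSeries.map (algebraMap M E) (gtr (cm S.tot Z')))
    + hd (LinearMap.mul M E) (PowerSeries.map (algebraMap M E) (gtr (cm S.tot Z))) Z'
    + hd S.nz Z Z' + PowerSeries.map (algebraMap M E) (hd S.zr Z Z' * qf L 1 1)

/-- `∑_{m ≥ 1} L^(- ∑_i ⌊m w_i / D⌋) [P : {P ≠ 0} ∩ ℂ^I → 𝔾] Tᵐ`, `I = {i : D ∣ m w_i}`: the arcs `z` with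
`D ord z_i ≥ m w_i` for all `i`, and `P(z₀) ≠ 0`, where `z₀` has the coordinates `z_i t^(- m w_i / D)` at
`t = 0` for `i ∈ I`, and `0` for `i ∉ I`. -/
noncomputable def swA (S : TSys M E L) {r : ℕ} (w : Fin r → ℕ) (D : ℕ)
    (P : MvPolynomial (Fin r) ℂ) : E⟦X⟧ :=
  PowerSeries.mk fun m => if m = 0 then 0 else
    (((LE L)⁻¹ ^ (∑ i, m * w i / D) : Eˣ) : E) *
      S.po r P (Finset.univ.filter fun i => D ∣ m * w i)

/-- `∑_m L^(- ∑_i (⌈(m + 1) w_i / D⌉ - 1)) Tᵐ`: the volumes of the arcs `z` with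
`D ord z_i ≥ (m + 1) w_i` for all `i` -/
noncomputable def swV (L : Mˣ) {r : ℕ} (w : Fin r → ℕ) (D : ℕ) : M⟦X⟧ :=
  PowerSeries.mk fun m => ((L⁻¹ ^ (∑ i, ((m + 1) * w i - 1) / D) : Mˣ) : M)

/-- The monodromic zeta function of `G₀ + G₁`, where `G₀` is weighted homogeneous of degree `D` for
the weights `w` with an isolated critical point, and `G₁` has greater weight: the arcs `z` with
`m / D ≤ min_i (ord z_i / w_i) < (m + 1) / D` which are not in the `m`-th part of `swA` have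
`G(z) / tᵐ` uniformly distributed among the power series in `t` without constant term. -/
noncomputable def swZ (S : TSys M E L) {r : ℕ} (w : Fin r → ℕ) (D : ℕ)
    (P : MvPolynomial (Fin r) ℂ) : E⟦X⟧ :=
  swA S w D P + PowerSeries.map (algebraMap M E)
    ((1 - (1 - X) * swV L w D - cm S.tot (swA S w D P)) * qf L 1 1)

/-- `TZ S σ F p 𝓩`: the polynomial `F` in the variables `σ` is in the least class of polynomials with
a point which is closed under the following rules, and `𝓩` is its local monodromic motivic zeta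
function at `p`, normalized such that all the arcs at `p` have the volume `1`.

* `smooth`: `F = 0` is smooth at `p`: `𝓩 = ∑_{m ≥ 1} L^(-m) Tᵐ` (times the class of the identity);
* `lin`: `F = h(x) (f₀(x) + ∑ y_j f_j(x)) ^ a`, `x = (x₁, x₂)`, and the zeta function is computed by
  blowing up points of the plane (`GermW`, `lfK`, `edK`); in particular, `F` may be any polynomial
  in two variables;
* `swh`: `F = G₀ + G₁` at the origin, where `G₀` is weighted homogeneous and has an isolated critical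
  point, and all the terms of `G₁` have greater weight;
* `sum`: the Thom-Sebastiani sum `F(x) + G(y)`;
* `mul`: the product `F(x) G(y)`: the orders are added, the angular components are multiplied;
* `pow`: `F = G ^ k`, `k ≥ 2`: the order is multiplied by `k`, and the angular component is
  the `k`-th power;
* `extra`: additional variables;
* `ren`: other names of the variables;
* `jet`: `F` may be replaced by `F'` at the origin, if for every `n` there are a unit `v` and coordinates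
  `ψ` at the origin with `v F'(ψ) ≡ F` modulo terms of degree `≥ n` (`CEq`). (A unit multiplies the
  angular components by a constant `u`; this does not change the class of `X_m → 𝔾`, because
  `t ↦ λ t` multiplies them by `λ ^ m`.) -/
inductive TZ (S : TSys M E L) : (σ : Type) → MvPolynomial σ ℂ → (σ → ℂ) → E⟦X⟧ → Prop
  | smooth {σ : Type} (F : MvPolynomial σ ℂ) (p : σ → ℂ) (h0 : MvPolynomial.eval p F = 0) (i : σ)
      (h1 : MvPolynomial.eval p (MvPolynomial.pderiv i F) ≠ 0) :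
      TZ S σ F p (qf (LE L) 1 1)
  | lin {κ : Type} [Fintype κ] [DecidableEq κ] (h : MvPolynomial (Fin 2) ℂ)
      (f : Option κ → MvPolynomial (Fin 2) ℂ) (a : ℕ) (ha : 1 ≤ a) (hF : FF h f a ≠ 0)
      (P : Fin 2 → ℂ) (c : κ → ℂ) (h0 : MvPolynomial.eval (Sum.elim P c) (FF h f a) = 0)
      (Z : E⟦X⟧)
      (hZ : GermW (lfK (LE L) a S.pc) (edK (LE L) a S.pc S.cl) a (translate P h)
        (fun j => translate P (fc c f j)) 0 1 0 1 Z) :
      TZ S (Fin 2 ⊕ κ) (FF h f a) (Sum.elim P c) Z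
  | swh {r : ℕ} (hr : 1 ≤ r) (G0 G1 : MvPolynomial (Fin r) ℂ) (w : Fin r → ℕ) (D : ℕ)
      (hw : ∀ i, 0 < w i) (hD : 0 < D) (hG0 : G0.IsWeightedHomogeneous w D)
      (hG1 : Ord w (D + 1) G1)
      (h0 : ∀ i, MvPolynomial.constantCoeff (MvPolynomial.pderiv i G0) = 0)
      (h1 : ∀ i, MvPolynomial.constantCoeff (MvPolynomial.pderiv i G1) = 0)
      (hz : ∀ z : Fin r → ℂ, (∀ i, MvPolynomial.eval z (MvPolynomial.pderiv i G0) = 0) → z = 0) :
      TZ S (Fin r) (G0 + G1) 0 (swZ S w D G0)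
  | sum {σ τ : Type} (F : MvPolynomial σ ℂ) (G : MvPolynomial τ ℂ) (p : σ → ℂ) (q : τ → ℂ)
      (Z Z' : E⟦X⟧) (hF : TZ S σ F p Z) (hG : TZ S τ G q Z') :
      TZ S (σ ⊕ τ) (MvPolynomial.rename Sum.inl F + MvPolynomial.rename Sum.inr G)
        (Sum.elim p q) (tsm S Z Z')
  | mul {σ τ : Type} (F : MvPolynomial σ ℂ) (G : MvPolynomial τ ℂ) (p : σ → ℂ) (q : τ → ℂ)
      (Z Z' : E⟦X⟧) (hF : TZ S σ F p Z) (hG : TZ S τ G q Z') :
      TZ S (σ ⊕ τ) (MvPolynomial.rename Sum.inl F * MvPolynomial.rename Sum.inr G)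
        (Sum.elim p q) (cv S.mu Z Z')
  | pow {σ : Type} (k : ℕ) (hk : 2 ≤ k) (hk0 : k ≠ 0) (G : MvPolynomial σ ℂ) (p : σ → ℂ)
      (Z : E⟦X⟧) (hG : TZ S σ G p Z) :
      TZ S σ (G ^ k) p (PowerSeries.expand k hk0 (cm (S.pw k) Z))
  | extra {σ τ : Type} (F : MvPolynomial σ ℂ) (p : σ → ℂ) (q : τ → ℂ) (Z : E⟦X⟧)
      (hF : TZ S σ F p Z) : TZ S (σ ⊕ τ) (MvPolynomial.rename Sum.inl F) (Sum.elim p q) Z
  | ren {σ τ : Type} (ε : σ ≃ τ) (F : MvPolynomial σ ℂ) (p : σ → ℂ) (Z : E⟦X⟧)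
      (hF : TZ S σ F p Z) : TZ S τ (MvPolynomial.rename ε F) (fun i => p (ε.symm i)) Z
  | jet {σ : Type} [Fintype σ] [DecidableEq σ] (F F' : MvPolynomial σ ℂ) (Z : E⟦X⟧)
      (hF : TZ S σ F 0 Z) (hj : ∀ n, CEq F' F n) : TZ S σ F' 0 Z

end Zeta

end Pool.Agent.J4H46.MT
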