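import Pool.Agent.J4H46.MS.Ops
import Pool.Agent.J4H46.MT.TDefs
import Pool.Agent.J4H46.MQ.Lift

set_option autoImplicit false
set_option linter.unusedSectionVars false
set_option linter.unusedVariables false

/-! # Bilinear products of power series and the denominators -/

namespace Pool.Agent.J4H46.MT

open PowerSeries Pool.Agent.W574.MO Pool.Agent.W574.RO Pool.Agent.J4H46.MS

section Bil

variable {M A B D : Type} [CommRing M] [CommRing A] [CommRing B] [CommRing D]
  [Algebra M A] [Algebra M B] [Algebra M D]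

variable (β : A →ₗ[M] B →ₗ[M] D)

theorem coeff_hd (f : A⟦X⟧) (g : B⟦X⟧) (m : ℕ) :
    coeff m (hd β f g) = β (coeff m f) (coeff m g) := coeff_mk _ _

theorem coeff_cv (f : A⟦X⟧) (g : B⟦X⟧) (m : ℕ) :
    coeff m (cv β f g) = ∑ p ∈ Finset.HasAntidiagonal.antidiagonal m,
      β (coeff p.1 f) (coeff p.2 g) := coeff_mk _ _

theorem hd_pol_left {f : A⟦X⟧} (g : B⟦X⟧) (hf : IsPol f) : IsPol (hd β f g) := by
  obtain ⟨N, hN⟩ := hf
  exact ⟨N, fun e he => by rw [coeff_hd, hN e he, map_zero, LinearMap.zero_apply]⟩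

theorem hd_pol_right (f : A⟦X⟧) {g : B⟦X⟧} (hg : IsPol g) : IsPol (hd β f g) := by
  obtain ⟨N, hN⟩ := hg
  exact ⟨N, fun e he => by rw [coeff_hd, hN e he, map_zero]⟩

theorem isPol_geom {R : Type} [CommRing R] {q : R⟦X⟧} (hq : IsPol q) (d : ℕ) :
    IsPol (∑ i ∈ Finset.range d, q ^ i) := by
  induction d with
  | zero =>
    rw [Finset.range_zero, Finset.sum_empty]
    exact ⟨0, by simp⟩
  | succ d ih =>
    rw [Finset.sum_range_succ]
    exact ih.add (hq.pow d)

theorem isPol_qq {R : Type} [CommRing R] (L : Rˣ) (a n : ℕ) : IsPol (qq L a n) :=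
  (isPol_C _).mul (isPol_X.pow a)

/-- the bigger denominator -/
theorem dp_big {R : Type} [CommRing R] (L : Rˣ) (a n d : ℕ) (s : Multiset (ℕ × ℕ)) {f : R⟦X⟧}
    (h : IsPol (dp L ((a, n) ::ₘ s) * f)) :
    IsPol (dp L s * ((1 - qq L (d * a) (d * n)) * f)) := by
  have h2 : (1 - qq L (d * a) (d * n) : R⟦X⟧)
      = (1 - qq L a n) * ∑ i ∈ Finset.range d, qq L a n ^ i := by
    rw [mul_neg_geom_sum, qq_pow]
  have h3 : dp L s * ((1 - qq L (d * a) (d * n)) * f)
      = (∑ i ∈ Finset.range d, qq L a n ^ i) * (dp L ((a, n) ::ₘ s) * f) := by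
    rw [h2, dp_cons]
    ring
  rw [h3]
  exact (isPol_geom (isPol_qq L a n) d).mul h

theorem dp_qq {R : Type} [CommRing R] (L : Rˣ) (a n : ℕ) (s : Multiset (ℕ × ℕ)) {f : R⟦X⟧}
    (h : IsPol (dp L s * f)) : IsPol (dp L s * (qq L a n * f)) := by
  have h3 : dp L s * (qq L a n * f) = qq L a n * (dp L s * f) := by ring
  rw [h3]
  exact (isPol_qq L a n).mul h

theorem bil_smul (β : A →ₗ[M] B →ₗ[M] D) (x y : M) (u : A) (v : B) :
    β (algebraMap M A x * u) (algebraMap M B y * v) = algebraMap M D (x * y) * β u v := by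
  rw [← Algebra.smul_def, ← Algebra.smul_def, map_smul, map_smul, LinearMap.smul_apply,
    smul_smul, mul_comm y x, Algebra.smul_def]

theorem hd_qq (L : Mˣ) (a n m : ℕ) (f : A⟦X⟧) (g : B⟦X⟧) :
    hd β (qq (LE L) a n * f) (qq (LE L) a m * g) = qq (LE L) a (n + m) * hd β f g := by
  ext k
  rw [coeff_hd, coeff_qq_mul, coeff_qq_mul, coeff_qq_mul, coeff_hd]
  split_ifs with h
  · rw [LE_inv, LE_inv, LE_inv, bil_smul, ← Units.val_mul, ← pow_add]
  · rw [map_zero]

theorem hd_sub_left (f f' : A⟦X⟧) (g : B⟦X⟧) : hd β (f - f') g = hd β f g - hd β f' g := by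
  ext m
  rw [map_sub, coeff_hd, coeff_hd, coeff_hd, map_sub, map_sub, LinearMap.sub_apply]

theorem hd_sub_right (f : A⟦X⟧) (g g' : B⟦X⟧) : hd β f (g - g') = hd β f g - hd β f g' := by
  ext m
  rw [map_sub, coeff_hd, coeff_hd, coeff_hd, map_sub, map_sub]

theorem hd_add_left (f f' : A⟦X⟧) (g : B⟦X⟧) : hd β (f + f') g = hd β f g + hd β f' g := by
  ext m
  rw [map_add, coeff_hd, coeff_hd, coeff_hd, map_add, map_add, LinearMap.add_apply]

theorem hd_add_right (f : A⟦X⟧) (g g' : B⟦X⟧) : hd β f (g + g') = hd β f g + hd β f g' := by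
  ext m
  rw [map_add, coeff_hd, coeff_hd, coeff_hd, map_add, map_add]

variable {β}

/-- **The denominators of the coefficientwise product.** -/
theorem hd_mem (β : A →ₗ[M] B →ₗ[M] D) {L : Mˣ} {K K' K'' : ℕ → ℕ → Prop}
    (hK : ∀ a n b m, 1 ≤ a → 1 ≤ n → 1 ≤ b → 1 ≤ m → K a n → K' b m →
      K'' (b * a) (b * n + a * m))
    {f : A⟦X⟧} {g : B⟦X⟧} (hf : f ∈ DenRing (LE L) K) (hg : g ∈ DenRing (LE L) K') :
    hd β f g ∈ DenRing (LE L) K'' := by
  obtain ⟨s, hs, hp⟩ := exists_dp hf
  obtain ⟨t, ht, hq⟩ := exists_dp hg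
  clear hf hg
  obtain ⟨N, hN⟩ : ∃ N, N = s.card + t.card := ⟨_, rfl⟩
  induction N generalizing s t f g with
  | zero =>
    have h1 : s = 0 := Multiset.card_eq_zero.1 (by omega)
    subst h1
    rw [dp, Multiset.map_zero, Multiset.prod_zero, one_mul] at hp
    exact mem_of_isPol (hd_pol_left β g hp)
  | succ N ih =>
    induction s using Multiset.induction_on with
    | empty =>
      rw [dp, Multiset.map_zero, Multiset.prod_zero, one_mul] at hp
      exact mem_of_isPol (hd_pol_left β g hp)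
    | cons x s _ =>
      induction t using Multiset.induction_on with
      | empty =>
        rw [dp, Multiset.map_zero, Multiset.prod_zero, one_mul] at hq
        exact mem_of_isPol (hd_pol_right β f hq)
      | cons y t _ =>
        obtain ⟨a, n⟩ := x
        obtain ⟨b, m⟩ := y
        obtain ⟨ha, hn, hk⟩ := hs (a, n) (Multiset.mem_cons_self _ _)
        obtain ⟨hb, hm, hk'⟩ := ht (b, m) (Multiset.mem_cons_self _ _)
        rw [Multiset.card_cons, Multiset.card_cons] at hN
        have hs' : ∀ p ∈ s, 1 ≤ p.1 ∧ 1 ≤ p.2 ∧ K p.1 p.2 := fun p hp =>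
          hs p (Multiset.mem_cons_of_mem hp)
        have ht' : ∀ p ∈ t, 1 ≤ p.1 ∧ 1 ≤ p.2 ∧ K' p.1 p.2 := fun p hp =>
          ht p (Multiset.mem_cons_of_mem hp)
        have h1 : hd β ((1 - qq (LE L) (b * a) (b * n)) * f) g ∈ DenRing (LE L) K'' :=
          ih s hs' (dp_big (LE L) a n b s hp) ((b, m) ::ₘ t) ht hq
            (by rw [Multiset.card_cons]; omega)
        have h2 : hd β (qq (LE L) (b * a) (b * n) * f) ((1 - qq (LE L) (a * b) (a * m)) * g)
            ∈ DenRing (LE L) K'' :=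
          ih ((a, n) ::ₘ s) hs (dp_qq (LE L) _ _ _ hp) t ht' (dp_big (LE L) b m a t hq)
            (by rw [Multiset.card_cons]; omega)
        have h3 : (1 - qq (LE L) (b * a) (b * n + a * m)) * hd β f g
            = hd β ((1 - qq (LE L) (b * a) (b * n)) * f) g
              + hd β (qq (LE L) (b * a) (b * n) * f) ((1 - qq (LE L) (a * b) (a * m)) * g) := by
          have e1 : (1 - qq (LE L) (b * a) (b * n)) * f
              = f - qq (LE L) (b * a) (b * n) * f := by ring
          have e2 : (1 - qq (LE L) (a * b) (a * m)) * g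
              = g - qq (LE L) (b * a) (a * m) * g := by rw [mul_comm a b]; ring
          rw [e1, e2, hd_sub_left, hd_sub_right, hd_qq]
          ring
        have h4 : 1 ≤ b * a := Nat.mul_pos hb ha
        have h5 : 1 ≤ b * n + a * m := by
          have h5' : 0 < b * n := Nat.mul_pos hb hn
          omega
        have h6 : hd β f g = geo (LE L : Dˣ) (b * a) (b * n + a * m)
            * (hd β ((1 - qq (LE L) (b * a) (b * n)) * f) g
              + hd β (qq (LE L) (b * a) (b * n) * f)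
                ((1 - qq (LE L) (a * b) (a * m)) * g)) := by
          rw [← h3]
          linear_combination (-hd β f g) * geo_mul (LE L : Dˣ) h4 (b * n + a * m)
        rw [h6]
        exact Subring.mul_mem _ (geo_mem h4 h5 (hK a n b m ha hn hb hm hk hk'))
          (Subring.add_mem _ h1 h2)

theorem cv_sub_left (f f' : A⟦X⟧) (g : B⟦X⟧) : cv β (f - f') g = cv β f g - cv β f' g := by
  ext m
  rw [map_sub, coeff_cv, coeff_cv, coeff_cv, ← Finset.sum_sub_distrib]
  refine Finset.sum_congr rfl fun p _ => ?_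
  rw [map_sub, map_sub, LinearMap.sub_apply]

theorem cv_sub_right (f : A⟦X⟧) (g g' : B⟦X⟧) : cv β f (g - g') = cv β f g - cv β f g' := by
  ext m
  rw [map_sub, coeff_cv, coeff_cv, coeff_cv, ← Finset.sum_sub_distrib]
  refine Finset.sum_congr rfl fun p _ => ?_
  rw [map_sub, map_sub]

/-- multiplication by series with coefficients in `M` -/
theorem cv_mul_left (u : M⟦X⟧) (f : A⟦X⟧) (g : B⟦X⟧) :
    cv β (PowerSeries.map (algebraMap M A) u * f) g
      = PowerSeries.map (algebraMap M D) u * cv β f g := by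
  ext m
  rw [coeff_cv, coeff_mul]
  have h1 : ∀ p ∈ Finset.HasAntidiagonal.antidiagonal m,
      β (coeff p.1 (PowerSeries.map (algebraMap M A) u * f)) (coeff p.2 g)
      = ∑ q ∈ Finset.HasAntidiagonal.antidiagonal p.1,
        algebraMap M D (coeff q.1 u) * β (coeff q.2 f) (coeff p.2 g) := by
    intro p _
    rw [coeff_mul, map_sum, LinearMap.sum_apply]
    refine Finset.sum_congr rfl fun q _ => ?_
    rw [coeff_map, ← Algebra.smul_def, map_smul, LinearMap.smul_apply, Algebra.smul_def]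
  have h2 : ∀ p ∈ Finset.HasAntidiagonal.antidiagonal m,
      coeff p.1 (PowerSeries.map (algebraMap M D) u) * coeff p.2 (cv β f g)
      = ∑ q ∈ Finset.HasAntidiagonal.antidiagonal p.2,
        algebraMap M D (coeff p.1 u) * β (coeff q.1 f) (coeff q.2 g) := by
    intro p _
    rw [coeff_map, coeff_cv, Finset.mul_sum]
  rw [Finset.sum_congr rfl h1, Finset.sum_congr rfl h2]
  rw [Finset.sum_sigma', Finset.sum_sigma']
  exact Finset.sum_nbij' (fun x => ⟨(x.2.1, x.2.2 + x.1.2), (x.2.2, x.1.2)⟩)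
    (fun x => ⟨(x.1.1 + x.2.1, x.2.2), (x.1.1, x.2.1)⟩)
    (by simp +contextual [Finset.mem_sigma, Finset.HasAntidiagonal.mem_antidiagonal, add_assoc,
      add_comm, add_left_comm]; try omega)
    (by simp +contextual [Finset.mem_sigma, Finset.HasAntidiagonal.mem_antidiagonal]; try omega)
    (by
      rintro ⟨⟨a, b⟩, ⟨c, d⟩⟩ h
      simp only [Finset.mem_sigma, Finset.HasAntidiagonal.mem_antidiagonal] at h
      simp [h.2])
    (by
      rintro ⟨⟨a, b⟩, ⟨c, d⟩⟩ h
      simp only [Finset.mem_sigma, Finset.HasAntidiagonal.mem_antidiagonal] at h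
      simp [h.2])
    (fun _ _ => rfl)

theorem cv_pol {f : A⟦X⟧} {g : B⟦X⟧} (hf : IsPol f) (hg : IsPol g) : IsPol (cv β f g) := by
  obtain ⟨N, hN⟩ := hf
  obtain ⟨N', hN'⟩ := hg
  refine ⟨N + N', fun e he => ?_⟩
  rw [coeff_cv]
  refine Finset.sum_eq_zero fun p hp => ?_
  rw [Finset.HasAntidiagonal.mem_antidiagonal] at hp
  by_cases h : N ≤ p.1
  · rw [hN _ h, map_zero, LinearMap.zero_apply]
  · rw [hN' _ (by omega), map_zero]

theorem cv_mul_right (u : M⟦X⟧) (f : A⟦X⟧) (g : B⟦X⟧) :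
    cv β f (PowerSeries.map (algebraMap M B) u * g)
      = PowerSeries.map (algebraMap M D) u * cv β f g := by
  have h : ∀ (f : A⟦X⟧) (g : B⟦X⟧), cv β f g = cv β.flip g f := by
    intro f g
    ext m
    rw [coeff_cv, coeff_cv, ← Finset.Nat.sum_antidiagonal_swap]
    rfl
  rw [h, cv_mul_left, ← h]

theorem map_qqL {L : Mˣ} (a n : ℕ) :
    PowerSeries.map (algebraMap M A) (qq L a n) = qq (LE L) a n :=
  Pool.Agent.J4H46.MQ.map_qq _ rfl a n

/-- **The denominators of the Cauchy product.** -/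
theorem cv_mem (β : A →ₗ[M] B →ₗ[M] D) {L : Mˣ} {K : ℕ → ℕ → Prop} {f : A⟦X⟧} {g : B⟦X⟧}
    (hf : f ∈ DenRing (LE L) K) (hg : g ∈ DenRing (LE L) K) :
    cv β f g ∈ DenRing (LE L) K := by
  obtain ⟨s, hs, hp⟩ := exists_dp hf
  clear hf
  induction s using Multiset.induction_on generalizing f with
  | empty =>
    rw [dp, Multiset.map_zero, Multiset.prod_zero, one_mul] at hp
    refine op_mem 1 le_rfl (cv β f) (cv_sub_right f) (fun g hg => cv_pol hp hg)
      (fun a _ => a) (fun _ n => n) (fun _ _ ha _ => ha) (fun _ _ _ hn => hn) ?_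
      (fun _ _ _ _ h => h) hg
    intro a n g' _ _
    rw [one_mul, one_mul, ← map_qqL, cv_mul_right, map_qqL]
  | cons x s ih =>
    obtain ⟨a, n⟩ := x
    obtain ⟨ha, hn, hk⟩ := hs (a, n) (Multiset.mem_cons_self _ _)
    have h1 : cv β ((1 - qq (LE L) a n) * f) g ∈ DenRing (LE L) K := by
      refine ih (fun q hq => hs q (Multiset.mem_cons_of_mem hq)) ?_
      have h3 : dp (LE L) s * ((1 - qq (LE L) a n) * f) = dp (LE L) ((a, n) ::ₘ s) * f := by
        rw [dp_cons]
        ring
      rw [h3]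
      exact hp
    have h5 : (1 - qq (LE L) a n) * cv β f g = cv β ((1 - qq (LE L) a n) * f) g := by
      have h7 : (1 - qq (LE L) a n) * f = f - qq (LE L) a n * f := by ring
      rw [h7, cv_sub_left, ← map_qqL (A := A), cv_mul_left, map_qqL]
      ring
    have h6 : cv β f g = geo (LE L : Dˣ) a n * cv β ((1 - qq (LE L) a n) * f) g := by
      rw [← h5]
      linear_combination (-cv β f g) * geo_mul (LE L : Dˣ) ha n
    rw [h6]
    exact Subring.mul_mem _ (geo_mem ha hn hk) h1

end Bil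

end Pool.Agent.J4H46.MT
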