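import Pool.Agent.J4H46.MT.Had
import Pool.Agent.J4H46.MS.Good
import Pool.Agent.J4H50.TT.TProd
import Pool.Agent.J4H50.TT.Swh

set_option autoImplicit false
set_option linter.unusedSectionVars false
set_option linter.unusedVariables false

/-! # The monodromic zeta functions of Thom-Sebastiani sums -/

namespace Pool.Agent.J4H46.MT

open PowerSeries Pool.Agent.W574.MO Pool.Agent.W574.RO Pool.Agent.W574.SM Pool.Agent.N103
open Pool.Agent.J4H46.MS
open Pool.Agent.N103.V (Ev)
open Pool.Agent.J4H46.MQ (map_qq map_geo map_den den_mono qq11 ll Xcancel)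
open Pool.Agent.J4H50.NI (LEv)
open Pool.Agent.J4H50.TT (not_LEv_sum sum_ne)

open scoped Polynomial

variable {M E : Type} [CommRing M] [CommRing E] [Algebra M E] {L : Mˣ}

/-- the structure used for the base cases -/
noncomputable def TSys.mon (S : TSys M E L) : MonSys M E L where
  pc := S.pc
  cl := S.cl
  tot := S.tot
  nz := fun d => S.nz.flip (S.pc d)
  zr := fun d => S.zr.flip (S.pc d)
  pw := S.pw
  pc_one := S.pc_one
  tot_pc := S.tot_pc
  tot_cl := S.tot_cl
  cl_two := S.cl_two
  nz_one := fun d hd => by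
    rw [LinearMap.flip_apply, S.nz_comm, S.nz_one, S.tot_pc d hd]
  zr_one := fun d hd => by
    rw [LinearMap.flip_apply, S.zr_comm, S.zr_one, S.tot_pc d hd]
  tot_nz := fun d x hd => by
    rw [LinearMap.flip_apply, LinearMap.flip_apply, S.tot_nz, S.tot_pc d hd, mul_comm]
  tot_pw := S.tot_pw

section Alg

variable (S : TSys M E L)

theorem t_one : S.tot 1 = (L : M) - 1 := by
  rw [← S.pc_one]
  exact S.tot_pc 1 le_rfl

theorem tot_alg (a : E) (x : M) :
    S.tot (a + algebraMap M E x) = S.tot a + ((L : M) - 1) * x := by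
  rw [map_add, Algebra.algebraMap_eq_smul_one, map_smul, t_one, smul_eq_mul, mul_comm]

theorem nz_alg (a b : E) (x y : M) : S.nz (a + algebraMap M E x) (b + algebraMap M E y)
    = S.nz a b + algebraMap M E y * (algebraMap M E (S.tot a) - a)
      + algebraMap M E x * (algebraMap M E (S.tot b) - b)
      + algebraMap M E (x * y) * (algebraMap M E (L : M) - 2) := by
  rw [Algebra.algebraMap_eq_smul_one x, Algebra.algebraMap_eq_smul_one y]
  simp only [map_add, LinearMap.add_apply, map_smul, LinearMap.smul_apply]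
  rw [S.nz_one, S.nz_comm 1 b, S.nz_one, S.nz_one, t_one, map_sub, map_one]
  simp only [Algebra.smul_def, map_mul, mul_one]
  ring

theorem zr_alg (a b : E) (x y : M) : S.zr (a + algebraMap M E x) (b + algebraMap M E y)
    = S.zr a b + y * S.tot a + x * S.tot b + x * y * ((L : M) - 1) := by
  rw [Algebra.algebraMap_eq_smul_one x, Algebra.algebraMap_eq_smul_one y]
  simp only [map_add, LinearMap.add_apply, map_smul, LinearMap.smul_apply]
  rw [S.zr_one, S.zr_comm 1 b, S.zr_one, S.zr_one, t_one]
  simp only [smul_eq_mul]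
  ring

end Alg

section Ke

variable {σ τ : Type} {F : MvPolynomial σ ℂ} {G : MvPolynomial τ ℂ} {p : σ → ℂ} {q : τ → ℂ}

theorem ke_iff (a n : ℕ) : KE F p a n ↔ ¬ LEv p F (-(n : ℂ) / a) := by
  constructor
  · rintro h ⟨H, hH, hE⟩
    exact h H hH hE
  · intro h H hH hE
    exact h ⟨H, hH, hE⟩

theorem ke_sum (hF : F ≠ 0) (hG : G ≠ 0) {a n b m : ℕ} (ha : 1 ≤ a) (hn : 1 ≤ n) (hb : 1 ≤ b)
    (hm : 1 ≤ m) (h1 : KE F p a n) (h2 : KE G q b m) :
    KE (MvPolynomial.rename Sum.inl F + MvPolynomial.rename Sum.inr G) (Sum.elim p q)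
      (b * a) (b * n + a * m) := by
  rw [ke_iff] at h1 h2 ⊢
  have hac : (a : ℂ) ≠ 0 := Nat.cast_ne_zero.2 (by omega)
  have hbc : (b : ℂ) ≠ 0 := Nat.cast_ne_zero.2 (by omega)
  have e : -((b * n + a * m : ℕ) : ℂ) / ((b * a : ℕ) : ℂ) = -(n : ℂ) / a + -(m : ℂ) / b := by
    push_cast
    field_simp
    ring
  rw [e]
  refine not_LEv_sum hF hG h1 h2 fun k hk => ?_
  rw [← e, div_eq_iff (by push_cast; exact mul_ne_zero hbc hac)] at hk
  have h3 : ((b * n + a * m + k * (b * a) : ℕ) : ℂ) = 0 := by
    push_cast at hk ⊢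
    linear_combination -hk
  rw [Nat.cast_eq_zero] at h3
  have h4 : 0 < b * n := Nat.mul_pos hb hn
  omega

end Ke

theorem hd_mem' {A B : Type} [CommRing A] [CommRing B] [Algebra M A] [Algebra M B]
    (β : A →ₗ[M] B →ₗ[M] M) {K K' K'' : ℕ → ℕ → Prop}
    (hK : ∀ a n b m, 1 ≤ a → 1 ≤ n → 1 ≤ b → 1 ≤ m → K a n → K' b m →
      K'' (b * a) (b * n + a * m))
    {f : A⟦X⟧} {g : B⟦X⟧} (hf : f ∈ DenRing (LE L) K) (hg : g ∈ DenRing (LE L) K') :
    hd β f g ∈ DenRing L K'' := by
  have := hd_mem β hK hf hg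
  rwa [LE_self] at this

theorem self_LE {K : ℕ → ℕ → Prop} {f : M⟦X⟧} (hf : f ∈ DenRing L K) :
    f ∈ DenRing (LE L : Mˣ) K := by
  rwa [LE_self]

section Main

variable (S : TSys M E L)

/-- the coefficients of `1 + X g` -/
theorem gtr_succ (Z : M⟦X⟧) (m : ℕ) :
    coeff m (gtr Z) = coeff (m + 1) (gtr Z) + coeff (m + 1) Z := by
  rw [gtr, coeff_mk, coeff_mk, Finset.sum_range_succ _ (m + 1)]
  ring

theorem gtr_zero' (Z : M⟦X⟧) : coeff 0 (gtr Z) = 1 - coeff 0 Z := by
  rw [gtr, coeff_mk, Finset.sum_range_one]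

/-- the product with `L⁻¹ T / (1 - L⁻¹ T)` -/
theorem q_mul (f : M⟦X⟧) (m : ℕ) : coeff (m + 1) (f * qf L 1 1)
    = ((L⁻¹ : Mˣ) : M) * (coeff m f + coeff m (f * qf L 1 1)) := by
  have h4 := qf11 (L := L)
  rw [qq11] at h4
  have h : f * qf L 1 1 = C ((L⁻¹ : Mˣ) : M) * (X * (f + f * qf L 1 1)) := by
    linear_combination f * h4
  conv_lhs => rw [h]
  rw [coeff_C_mul, coeff_succ_X_mul, map_add]

theorem q_zero (f : M⟦X⟧) : coeff 0 (f * qf L 1 1) = 0 := by
  have h4 := qf11 (L := L)
  rw [qq11] at h4
  have h : f * qf L 1 1 = C ((L⁻¹ : Mˣ) : M) * (X * (f + f * qf L 1 1)) := by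
    linear_combination f * h4
  rw [h, coeff_C_mul, coeff_zero_X_mul, mul_zero]

/-- **The Thom-Sebastiani sum.** -/
theorem good_sum {σ τ : Type} {F : MvPolynomial σ ℂ} {G : MvPolynomial τ ℂ} {p : σ → ℂ}
    {q : τ → ℂ} {Z Z' : E⟦X⟧} (hF : SGood S.mon F p Z) (hG : SGood S.mon G q Z') :
    SGood S.mon (MvPolynomial.rename Sum.inl F + MvPolynomial.rename Sum.inr G) (Sum.elim p q)
      (tsm S Z Z') where
  ne := sum_ne hF.ne hF.zero hG.zero
  zero := by
    rw [map_add, Pool.Agent.J4H50.TT.eval_inl, Pool.Agent.J4H50.TT.eval_inr, hF.zero, hG.zero,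
      add_zero]
  dec := by
    obtain ⟨R, ρ, hZ, hR, hσ, hδ⟩ := hF.dec
    obtain ⟨R', ρ', hZ', hR', hσ', hδ'⟩ := hG.dec
    have hK : ∀ a n b m, 1 ≤ a → 1 ≤ n → 1 ≤ b → 1 ≤ m → KE F p a n → KE G q b m →
        KE (MvPolynomial.rename Sum.inl F + MvPolynomial.rename Sum.inr G) (Sum.elim p q)
          (b * a) (b * n + a * m) :=
      fun a n b m ha hn hb hm h1 h2 => ke_sum hF.ne hG.ne ha hn hb hm h1 h2
    set K := KE F p with hKd
    set K' := KE G q with hKd'
    set K'' := KE (MvPolynomial.rename Sum.inl F + MvPolynomial.rename Sum.inr G) (Sum.elim p q)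
      with hKd''
    have hmt : S.mon.tot = S.tot := rfl
    rw [hmt] at hδ hδ'
    rw [hmt]
    set g := gtr (cm S.tot Z) with hg
    set g' := gtr (cm S.tot Z') with hg'
    set lam := hd S.zr R R' with hlam
    have hlamK : lam ∈ DenRing L K'' := hd_mem' _ hK hR hR'
    set z := hd S.zr Z Z' with hz
    -- the coefficients
    have ct : ∀ m, coeff m (cm S.tot Z) = S.tot (coeff m R) + ((L : M) - 1) * coeff m ρ := by
      intro m
      rw [coeff_cm, hZ, map_add, coeff_map, tot_alg]
    have ct' : ∀ m, coeff m (cm S.tot Z') = S.tot (coeff m R') + ((L : M) - 1) * coeff m ρ' := by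
      intro m
      rw [coeff_cm, hZ', map_add, coeff_map, tot_alg]
    have cz : ∀ m, coeff m z = coeff m lam + coeff m ρ' * S.tot (coeff m R)
        + coeff m ρ * S.tot (coeff m R') + coeff m ρ * coeff m ρ' * ((L : M) - 1) := by
      intro m
      have h2 : coeff m Z = coeff m R + algebraMap M E (coeff m ρ) := by
        conv_lhs => rw [hZ]
        rw [map_add, coeff_map]
      have h3 : coeff m Z' = coeff m R' + algebraMap M E (coeff m ρ') := by
        conv_lhs => rw [hZ']
        rw [map_add, coeff_map]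
      rw [hz, coeff_hd, hlam, coeff_hd, h2, h3, zr_alg]
    have hl : ((L : M)) * ((L⁻¹ : Mˣ) : M) = 1 := L.mul_inv
    set mm := LinearMap.mul M M with hmm
    have cmm : ∀ (x y : M), mm x y = x * y := fun x y => rfl
    refine ⟨hd (LinearMap.mul M E) R (PowerSeries.map (algebraMap M E) (g' - ρ'))
        + hd (LinearMap.mul M E) (PowerSeries.map (algebraMap M E) (g - ρ)) R' + hd S.nz R R',
      hd mm ρ (g' + cm S.tot Z') + hd mm (g + cm S.tot Z) ρ' - C (L : M) * hd mm ρ ρ'
        + z * qf L 1 1, ?_, ?_, ?_, ?_⟩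
    · ext m
      rw [tsm, ← hg, ← hg', ← hz]
      simp only [map_add, coeff_hd, coeff_map, map_sub, coeff_C_mul, LinearMap.mul_apply', cmm,
        ct, ct', LinearMap.add_apply, LinearMap.sub_apply]
      have h1 := nz_alg S (coeff m R) (coeff m R') (coeff m ρ) (coeff m ρ')
      have h2 : coeff m Z = coeff m R + algebraMap M E (coeff m ρ) := by
        conv_lhs => rw [hZ]
        rw [map_add, coeff_map]
      have h3 : coeff m Z' = coeff m R' + algebraMap M E (coeff m ρ') := by
        conv_lhs => rw [hZ']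
        rw [map_add, coeff_map]
      rw [h2, h3, h1]
      simp only [map_mul, map_one, map_add, map_sub]
      ring
    · refine Subring.add_mem _ (Subring.add_mem _ ?_ ?_) ?_
      · exact hd_mem _ hK hR (map_den _ hι' hδ')
      · exact hd_mem _ hK (map_den _ hι' hδ) hR'
      · exact hd_mem _ hK hR hR'
    · have e1 : (1 - qq L 1 1) * (hd mm ρ (g' + cm S.tot Z') + hd mm (g + cm S.tot Z) ρ'
          - C (L : M) * hd mm ρ ρ' + z * qf L 1 1)
          = hd mm ((1 - qq L 1 1) * ρ) (1 + X * (g' - ρ'))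
            + hd mm (1 + X * (g - ρ)) ((1 - qq L 1 1) * ρ')
            - C (L : M) * hd mm ((1 - qq L 1 1) * ρ) ((1 - qq L 1 1) * ρ')
            + C ((L⁻¹ : Mˣ) : M) * (X * lam) := by
        have hs : ∀ f : M⟦X⟧, (1 - qq L 1 1) * f = f - C ((L⁻¹ : Mˣ) : M) * (X * f) := by
          intro f
          rw [qq11]
          ring
        rw [hs, hs, hs]
        ext m
        rcases m with _ | m
        · simp only [map_sub, map_add, coeff_hd, coeff_C_mul, coeff_zero_X_mul, mul_zero,
            sub_zero, add_zero, cmm, coeff_zero_one, mul_one, one_mul, q_zero, hg, hg',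
            gtr_zero', LinearMap.add_apply, LinearMap.sub_apply]
          ring
        · have g1 := gtr_succ (cm S.tot Z) m
          have g2 := gtr_succ (cm S.tot Z') m
          rw [← hg] at g1
          rw [← hg'] at g2
          have h1 : coeff (m + 1) (1 : M⟦X⟧) = 0 := by
            rw [coeff_one, if_neg (Nat.succ_ne_zero m)]
          simp only [map_sub, map_add, coeff_hd, coeff_C_mul, coeff_succ_X_mul, cmm, h1,
            q_mul, LinearMap.add_apply, LinearMap.sub_apply]
          rw [cz m, ct m, ct' m]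
          linear_combination (-coeff (m + 1) ρ) * g2 - coeff (m + 1) ρ' * g1 + (-(coeff (m + 1) ρ * coeff m ρ') - coeff m ρ * coeff (m + 1) ρ'
            + ((L⁻¹ : Mˣ) : M) * coeff m ρ * coeff m ρ') * hl
      rw [e1]
      refine Subring.add_mem _ (Subring.sub_mem _ (Subring.add_mem _ ?_ ?_) ?_) ?_
      · exact hd_mem' _ hK (self_LE hσ) (Subring.add_mem _ (Subring.one_mem _)
          (Subring.mul_mem _ X_mem (self_LE hδ')))
      · exact hd_mem' _ hK (Subring.add_mem _ (Subring.one_mem _)
          (Subring.mul_mem _ X_mem (self_LE hδ))) (self_LE hσ')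
      · exact Subring.mul_mem _ (C_mem _) (hd_mem' _ hK (self_LE hσ) (self_LE hσ'))
      · exact Subring.mul_mem _ (C_mem _) (Subring.mul_mem _ X_mem hlamK)
    · have e0 : gtr (cm S.tot (tsm S Z Z')) = hd mm g g' + z + z * qf L 1 1 := by
        apply Xcancel
        have h1 := gtr_eq (cm S.tot (tsm S Z Z'))
        have h2 : X * (z * qf L 1 1) = C (L : M) * (z * qf L 1 1) - X * z := by
          have h4 := qf11 (L := L)
          have h5 := ll L
          rw [qq11] at h4
          linear_combination (-(C (L : M)) * z) * h4 - (X * z * (1 + qf L 1 1)) * h5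
        have h3 : (1 - X) * hd mm g g' = 1 - hd mm (cm S.tot Z) g' - hd mm g (cm S.tot Z')
            - hd mm (cm S.tot Z) (cm S.tot Z') := by
          ext m
          rw [sub_mul, one_mul]
          rcases m with _ | m
          · simp only [map_sub, coeff_hd, coeff_zero_X_mul, coeff_zero_one, cmm, sub_zero, hg,
              hg', gtr_zero', LinearMap.sub_apply]
            ring
          · have g1 := gtr_succ (cm S.tot Z) m
            have g2 := gtr_succ (cm S.tot Z') m
            rw [← hg] at g1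
            rw [← hg'] at g2
            have h1 : coeff (m + 1) (1 : M⟦X⟧) = 0 := by
              rw [coeff_one, if_neg (Nat.succ_ne_zero m)]
            simp only [map_sub, coeff_hd, coeff_succ_X_mul, cmm, h1, LinearMap.sub_apply]
            rw [g1, g2]
            ring
        have h4 : cm S.tot (tsm S Z Z') = hd mm (cm S.tot Z) g' + hd mm g (cm S.tot Z')
            + (hd mm (cm S.tot Z) (cm S.tot Z') - z) + (C (L : M) - 1) * (z * qf L 1 1) := by
          rw [tsm, ← hg, ← hg', ← hz]
          ext m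
          have h6 : coeff m ((C (L : M) - 1) * (z * qf L 1 1))
              = ((L : M) - 1) * coeff m (z * qf L 1 1) := by
            rw [sub_mul, one_mul, map_sub, coeff_C_mul]
            ring
          have h7 : ∀ (x : E) (y : M), S.tot (x * algebraMap M E y) = S.tot x * y := by
            intro x y
            rw [mul_comm, ← Algebra.smul_def, map_smul, smul_eq_mul, mul_comm]
          have h8 : ∀ (x : M) (y : E), S.tot (algebraMap M E x * y) = x * S.tot y := by
            intro x y
            rw [← Algebra.smul_def, map_smul, smul_eq_mul]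
          have h9 := S.tot_nz (coeff m Z) (coeff m Z')
          have h10 : S.tot (algebraMap M E (coeff m (z * qf L 1 1)))
              = ((L : M) - 1) * coeff m (z * qf L 1 1) := by
            have := tot_alg S 0 (coeff m (z * qf L 1 1))
            rwa [map_zero, zero_add, zero_add] at this
          rw [coeff_cm]
          simp only [map_add, map_sub, coeff_hd, coeff_map, LinearMap.mul_apply', cmm, coeff_cm,
            h6, h7, h8, h10]
          have h11 : coeff m z = S.zr (coeff m Z) (coeff m Z') := by rw [hz, coeff_hd]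
          rw [h11]
          linear_combination h9
        linear_combination h1 - h4 - h3 + h2
      have e1 : gtr (cm S.tot (tsm S Z Z')) - (hd mm ρ (g' + cm S.tot Z')
          + hd mm (g + cm S.tot Z) ρ' - C (L : M) * hd mm ρ ρ' + z * qf L 1 1)
          = hd mm (g - ρ) (g' - ρ') + lam := by
        rw [e0]
        ext m
        simp only [map_sub, map_add, coeff_hd, coeff_C_mul, cmm, LinearMap.add_apply,
          LinearMap.sub_apply]
        rw [cz m, ct m, ct' m]
        ring
      rw [e1]
      exact Subring.add_mem _ (hd_mem' _ hK (self_LE hδ) (self_LE hδ')) hlamK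

end Main

end Pool.Agent.J4H46.MT
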